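import Mathlib

/-!
# MP_c77635_an : a bidemocratic basis of `ℓ₂` with no Lorentz-space squeezing

We construct a basis `x` of `ℓ₂` (with bounded biorthogonal functionals that separate points)
which is bidemocratic, but for which `ℓ_{2,q} ↪ ℓ₂` fails for every `q > 1` and
`ℓ₂ ↪ ℓ_{2,r}` fails for every `0 < r < ∞`.
-/

open scoped ENNReal NNReal InnerProductSpace

namespace Pool.Agent.Results.MP_c77635_an.NoSqueeze

noncomputable section

/-- The Hilbert space `ℓ₂` over `𝕜`. -/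
abbrev L2 (𝕜 : Type) [RCLike 𝕜] : Type := lp (fun _ : ℕ => 𝕜) 2

section Defs

variable {𝕜 : Type} [RCLike 𝕜]

/-- `x`, with the functionals `xs`, is a basis of `ℓ₂` in the sense of the problem: its linear
span is dense, `xs` is biorthogonal to `x` and separates the points of `ℓ₂`, and the norms of
the `x n` and of the `xs n` are bounded. -/
structure IsBasis (x : ℕ → L2 𝕜) (xs : ℕ → (L2 𝕜 →L[𝕜] 𝕜)) : Prop where
  dense : Dense (Submodule.span 𝕜 (Set.range x) : Set (L2 𝕜))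
  biorth : ∀ n k, xs n (x k) = if n = k then 1 else 0
  total : ∀ f, (∀ n, xs n f = 0) → f = 0
  bdd : ∃ C : ℝ, ∀ n, ‖x n‖ ≤ C ∧ ‖xs n‖ ≤ C

/-- The quantity `φ_m = sup {‖∑_{n ∈ A} ε_n v_n‖ : |A| ≤ m, |ε_n| = 1}`. -/
def phi {V : Type} [NormedAddCommGroup V] [NormedSpace 𝕜 V] (v : ℕ → V) (m : ℕ) : ℝ≥0∞ :=
  ⨆ (A : Finset ℕ) (_ : A.card ≤ m) (ε : ℕ → 𝕜) (_ : ∀ n, ‖ε n‖ = 1), ‖∑ n ∈ A, ε n • v n‖ₑ

/-- Bidemocracy: `sup_m φ_m φ_m^* / m < ∞`. -/
def Bidemocratic (x : ℕ → L2 𝕜) (xs : ℕ → (L2 𝕜 →L[𝕜] 𝕜)) : Prop :=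
  ∃ C : ℝ≥0, ∀ m : ℕ, 1 ≤ m → phi (𝕜 := 𝕜) x m * phi (𝕜 := 𝕜) xs m ≤ C * m

/-- The non-increasing rearrangement of `(|a k|)`, indexed from `0`: `rearr a n` is the
`(n+1)`-st term. -/
def rearr (a : ℕ → 𝕜) (n : ℕ) : ℝ≥0∞ :=
  sInf {t : ℝ≥0∞ | {k : ℕ | t < ‖a k‖ₑ}.encard ≤ n}

/-- The Lorentz (quasi-)norm `‖a‖_{2,s}`, with value `∞` outside `ℓ_{2,s}`. -/
def lorentz (s : ℝ) (a : ℕ → 𝕜) : ℝ≥0∞ :=
  (∑' n : ℕ, rearr a n ^ s * ((n : ℝ≥0∞) + 1) ^ (s / 2 - 1)) ^ (1 / s)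

/-- `ℓ_{2,q} ↪ ℓ₂` via `x`. -/
def EmbL (x : ℕ → L2 𝕜) (q : ℝ) : Prop :=
  ∃ C : ℝ≥0, ∀ a : ℕ →₀ 𝕜, ‖∑ n ∈ a.support, a n • x n‖ₑ ≤ C * lorentz q a

/-- `ℓ₂ ↪ ℓ_{2,r}` via the coefficient functionals. -/
def EmbR (xs : ℕ → (L2 𝕜 →L[𝕜] 𝕜)) (r : ℝ) : Prop :=
  ∃ C : ℝ≥0, ∀ f : L2 𝕜, lorentz r (fun n => xs n f) ≤ C * ‖f‖ₑ

end Defs

/-! ### Index bookkeeping -/

/-- A bijection of `ℕ` with the disjoint union of the sets `{0,…,j}`. -/
def idx : ℕ ≃ (Σ j : ℕ, Fin (j + 1)) :=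
  Classical.choice (nonempty_equiv_of_countable)

/-- block of an index -/
def blk (n : ℕ) : ℕ := (idx n).1

/-- position of an index inside its block -/
def pos (n : ℕ) : ℕ := (idx n).2.val

lemma pos_lt (n : ℕ) : pos n < blk n + 1 := (idx n).2.isLt

/-- the `j`-th block -/
def block (j : ℕ) : Finset ℕ :=
  (Finset.univ : Finset (Fin (j + 1))).image (fun i => idx.symm ⟨j, i⟩)

lemma mem_block {j n : ℕ} : n ∈ block j ↔ blk n = j := by
  unfold block blk
  simp only [Finset.mem_image, Finset.mem_univ, true_and]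
  constructor
  · rintro ⟨i, rfl⟩
    simp
  · rintro rfl
    exact ⟨(idx n).2, by simp⟩

lemma eq_of_blk_pos {n k : ℕ} (h : blk n = blk k) (h' : pos n = pos k) : n = k := by
  apply idx.injective
  unfold blk pos at *
  generalize idx n = p at *
  generalize idx k = q at *
  obtain ⟨a, b⟩ := p
  obtain ⟨c, d⟩ := q
  simp only at h
  subst h
  simp only at h'
  congr 1
  exact Fin.ext h'

lemma pos_symm (j : ℕ) (i : Fin (j + 1)) : pos (idx.symm ⟨j, i⟩) = i :=
  congrArg (fun p : (Σ j : ℕ, Fin (j + 1)) => p.2.val) (idx.apply_symm_apply ⟨j, i⟩)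

lemma blk_symm (j : ℕ) (i : Fin (j + 1)) : blk (idx.symm ⟨j, i⟩) = j := by
  simp [blk]

lemma sum_block {M : Type} [AddCommMonoid M] (j : ℕ) (f : ℕ → M) :
    ∑ n ∈ block j, f (pos n) = ∑ i ∈ Finset.range (j + 1), f i := by
  unfold block
  rw [Finset.sum_image]
  · simp only [pos_symm]
    exact Fin.sum_univ_eq_sum_range (fun i => f i) (j + 1)
  · intro a _ b _ hab
    have := idx.symm.injective hab
    simpa using this

lemma card_block (j : ℕ) : (block j).card = j + 1 := by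
  have := sum_block j (fun _ => (1 : ℕ))
  simpa using this

/-! ### The weights -/

/-- `c n = (pos n + 1)^{-1/2}` -/
def c (n : ℕ) : ℝ := 1 / Real.sqrt (pos n + 1)

/-- harmonic sums -/
def h (j : ℕ) : ℝ := ∑ i ∈ Finset.range (j + 1), 1 / ((i : ℝ) + 1)

lemma h_ge_one (j : ℕ) : 1 ≤ h j := by
  unfold h
  rw [Finset.sum_range_succ']
  simp only [Nat.cast_zero, zero_add, div_one, le_add_iff_nonneg_left]
  apply Finset.sum_nonneg
  intro i _
  positivity

/-- `s j = √(h j)` -/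
def s (j : ℕ) : ℝ := Real.sqrt (h j)

lemma s_ge_one (j : ℕ) : 1 ≤ s j := by
  unfold s
  rw [show (1 : ℝ) = Real.sqrt 1 by simp]
  exact Real.sqrt_le_sqrt (h_ge_one j)

lemma s_pos (j : ℕ) : 0 < s j := lt_of_lt_of_le one_pos (s_ge_one j)

lemma s_sq (j : ℕ) : s j * s j = h j := by
  unfold s
  exact Real.mul_self_sqrt (le_trans zero_le_one (h_ge_one j))

lemma c_pos (n : ℕ) : 0 < c n := by unfold c; positivity

lemma c_sq (n : ℕ) : c n * c n = 1 / ((pos n : ℝ) + 1) := by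
  unfold c
  rw [div_mul_div_comm, one_mul, Real.mul_self_sqrt (by positivity)]

lemma sum_c_sq (j : ℕ) : ∑ n ∈ block j, c n * c n = h j := by
  simp only [c_sq]
  exact sum_block j (fun i => 1 / ((i : ℝ) + 1))

/-- normalised weights -/
def w (n : ℕ) : ℝ := c n / s (blk n)

lemma w_pos (n : ℕ) : 0 < w n := div_pos (c_pos n) (s_pos _)

lemma c_eq {j n : ℕ} (hn : n ∈ block j) : c n = s j * w n := by
  unfold w
  rw [mem_block.1 hn]
  field_simp [(s_pos j).ne']

lemma sum_w_sq (j : ℕ) : ∑ n ∈ block j, w n * w n = 1 := by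
  have : ∀ n ∈ block j, w n * w n = (c n * c n) / h j := by
    intro n hn
    unfold w
    rw [mem_block.1 hn, div_mul_div_comm, s_sq]
  rw [Finset.sum_congr rfl this, ← Finset.sum_div, sum_c_sq]
  exact div_self (lt_of_lt_of_le one_pos (h_ge_one j)).ne'

lemma sum_inv_sqrt_le (B : Finset ℕ) :
    ∑ i ∈ B, 1 / Real.sqrt ((i : ℝ) + 1) ≤ 2 * Real.sqrt B.card := by
  refine Finset.induction_on_max B (by simp) ?_
  · intro m B hB ih
    have hm : m ∉ B := fun hmem => lt_irrefl _ (hB m hmem)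
    rw [Finset.sum_insert hm, Finset.card_insert_of_notMem hm]
    have hcard : B.card ≤ m := by
      have : B ⊆ Finset.range m := fun x hx => Finset.mem_range.2 (hB x hx)
      simpa using Finset.card_le_card this
    set k := B.card
    have h1 : 1 / Real.sqrt ((m : ℝ) + 1) ≤ 1 / Real.sqrt ((k : ℝ) + 1) := by
      apply one_div_le_one_div_of_le (by positivity)
      apply Real.sqrt_le_sqrt
      have : (k : ℝ) ≤ m := by exact_mod_cast hcard
      linarith
    have h2 : 1 / Real.sqrt ((k : ℝ) + 1) + 2 * Real.sqrt k ≤ 2 * Real.sqrt ((k : ℝ) + 1) := by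
      have hu : 0 < Real.sqrt ((k : ℝ) + 1) := by positivity
      have hv : 0 ≤ Real.sqrt (k : ℝ) := Real.sqrt_nonneg _
      have hu2 : Real.sqrt ((k : ℝ) + 1) * Real.sqrt ((k : ℝ) + 1) = k + 1 :=
        Real.mul_self_sqrt (by positivity)
      have hv2 : Real.sqrt (k : ℝ) * Real.sqrt (k : ℝ) = k :=
        Real.mul_self_sqrt (by positivity)
      set u := Real.sqrt ((k : ℝ) + 1)
      set v := Real.sqrt (k : ℝ)
      have : 1 / u = u * u / u - v * v / u := by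
        rw [hu2, hv2]; field_simp; ring
      rw [this, mul_div_assoc, div_self hu.ne']
      have h3 : 0 ≤ (u - v) ^ 2 / u := by positivity
      have h4 : (u - v) ^ 2 / u = u - 2 * v + v * v / u := by
        field_simp; ring
      rw [h4] at h3
      linarith
    push_cast
    linarith

lemma sum_c_le (j : ℕ) (A : Finset ℕ) (hA : A ⊆ block j) :
    ∑ n ∈ A, c n ≤ 2 * Real.sqrt A.card := by
  have hinj : Set.InjOn pos (A : Set ℕ) := by
    intro a ha b hb hab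
    apply eq_of_blk_pos _ hab
    rw [mem_block.1 (hA ha), mem_block.1 (hA hb)]
  have h1 := sum_inv_sqrt_le (A.image pos)
  rw [Finset.sum_image hinj, Finset.card_image_of_injOn hinj] at h1
  exact h1

lemma sum_w_le (j : ℕ) (A : Finset ℕ) (hA : A ⊆ block j) :
    s j * ∑ n ∈ A, w n ≤ 2 * Real.sqrt A.card := by
  rw [Finset.mul_sum, Finset.sum_congr rfl (fun n hn => (c_eq (hA hn)).symm)]
  exact sum_c_le j A hA

/-! ### Vectors -/

section Vectors

variable {𝕜 : Type} [RCLike 𝕜]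

/-- unit vectors -/
def e (n : ℕ) : L2 𝕜 := lp.single 2 n (1 : 𝕜)

/-- normalised block vectors -/
def W (j : ℕ) : L2 𝕜 := ∑ k ∈ block j, ((w k : ℝ) : 𝕜) • e k

lemma inner_e (n : ℕ) (f : L2 𝕜) : ⟪(e n : L2 𝕜), f⟫_𝕜 = f n := by
  unfold e
  rw [lp.inner_single_left]
  simp

lemma inner_e_e (n k : ℕ) : ⟪(e n : L2 𝕜), e k⟫_𝕜 = if n = k then 1 else 0 := by
  rw [inner_e]
  unfold e
  by_cases h : n = k
  · subst h; simp
  · simp [h]

lemma inner_e_W (n j : ℕ) :
    ⟪(e n : L2 𝕜), W j⟫_𝕜 = if blk n = j then ((w n : ℝ) : 𝕜) else 0 := by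
  unfold W
  rw [inner_sum]
  simp only [inner_smul_right, inner_e_e, mul_ite, mul_one, mul_zero]
  rw [Finset.sum_ite_eq]
  simp only [mem_block]

lemma inner_W_e (n j : ℕ) :
    ⟪(W j : L2 𝕜), e n⟫_𝕜 = if blk n = j then ((w n : ℝ) : 𝕜) else 0 := by
  rw [← inner_conj_symm, inner_e_W]
  split_ifs <;> simp

lemma inner_W_W (i j : ℕ) : ⟪(W i : L2 𝕜), W j⟫_𝕜 = if i = j then 1 else 0 := by
  conv_lhs => rw [W]
  rw [sum_inner]
  simp only [inner_smul_left, inner_e_W, RCLike.conj_ofReal, mul_ite, mul_zero]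
  have h1 : ∀ k ∈ block i, (if blk k = j then ((w k : ℝ) : 𝕜) * ((w k : ℝ) : 𝕜) else 0)
      = if i = j then (((w k * w k : ℝ)) : 𝕜) else 0 := by
    intro k hk
    rw [mem_block.1 hk]
    simp
  rw [Finset.sum_congr rfl h1]
  split_ifs with h
  · rw [← RCLike.ofReal_sum, sum_w_sq]; simp
  · simp

lemma orthonormal_W : Orthonormal 𝕜 (fun j => (W j : L2 𝕜)) := by
  rw [orthonormal_iff_ite]
  intro i j
  exact inner_W_W i j

lemma orthonormal_e : Orthonormal 𝕜 (fun j => (e j : L2 𝕜)) := by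
  rw [orthonormal_iff_ite]
  intro i j
  exact inner_e_e i j

lemma norm_sum_sq {v : ℕ → L2 𝕜} (hv : Orthonormal 𝕜 v) (A : Finset ℕ) (a : ℕ → 𝕜) :
    ‖∑ n ∈ A, a n • v n‖ ^ 2 = ∑ n ∈ A, ‖a n‖ ^ 2 := by
  have h1 := hv.inner_sum a a A
  rw [inner_self_eq_norm_sq_to_K] at h1
  have h2 : ∀ n ∈ A, (starRingEnd 𝕜) (a n) * a n = ((‖a n‖ ^ 2 : ℝ) : 𝕜) := by
    intro n _
    rw [RCLike.conj_mul]
    push_cast
    rfl
  rw [Finset.sum_congr rfl h2, ← RCLike.ofReal_sum] at h1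
  exact_mod_cast h1

/-- the perturbed unit vectors -/
def vec (γ : ℕ → ℝ) (n : ℕ) : L2 𝕜 :=
  e n + ((γ (blk n) * w n : ℝ) : 𝕜) • W (blk n)

lemma norm_sum_vec_le {γ : ℕ → ℝ} (hγ : ∀ j, |γ j| ≤ s j) (A : Finset ℕ) (ε : ℕ → 𝕜)
    (hε : ∀ n, ‖ε n‖ = 1) :
    ‖∑ n ∈ A, ε n • (vec γ n : L2 𝕜)‖ ≤ 3 * Real.sqrt A.card := by
  have h1 : ∑ n ∈ A, ε n • (vec γ n : L2 𝕜) = ∑ n ∈ A, ε n • (e n : L2 𝕜) +
      ∑ j ∈ A.image blk, (((γ j : ℝ) : 𝕜) *
        ∑ n ∈ A.filter (fun n => blk n = j), ε n * ((w n : ℝ) : 𝕜)) • (W j : L2 𝕜) := by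
    unfold vec
    simp only [smul_add, Finset.sum_add_distrib]
    congr 1
    rw [← Finset.sum_fiberwise_of_maps_to (s := A) (t := A.image blk) (g := blk)
      (fun n hn => Finset.mem_image_of_mem _ hn)]
    apply Finset.sum_congr rfl
    intro j _
    rw [Finset.mul_sum, Finset.sum_smul]
    apply Finset.sum_congr rfl
    intro n hn
    rw [(Finset.mem_filter.1 hn).2, smul_smul]
    congr 1
    push_cast
    ring
  have h2 : ‖∑ n ∈ A, ε n • (e n : L2 𝕜)‖ ≤ Real.sqrt A.card := by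
    apply Real.le_sqrt_of_sq_le
    rw [norm_sum_sq orthonormal_e]
    simp [hε]
  have h3 : ‖∑ j ∈ A.image blk, (((γ j : ℝ) : 𝕜) *
        ∑ n ∈ A.filter (fun n => blk n = j), ε n * ((w n : ℝ) : 𝕜)) • (W j : L2 𝕜)‖
      ≤ 2 * Real.sqrt A.card := by
    have h4 : (2 : ℝ) * Real.sqrt A.card = Real.sqrt (4 * A.card) := by
      rw [Real.sqrt_mul (by norm_num), show (4 : ℝ) = 2 ^ 2 by norm_num,
        Real.sqrt_sq (by norm_num)]
    rw [h4]
    apply Real.le_sqrt_of_sq_le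
    rw [norm_sum_sq orthonormal_W]
    have h5 : ∀ j ∈ A.image blk, ‖((γ j : ℝ) : 𝕜) *
        ∑ n ∈ A.filter (fun n => blk n = j), ε n * ((w n : ℝ) : 𝕜)‖ ^ 2
        ≤ 4 * ((A.filter (fun n => blk n = j)).card : ℝ) := by
      intro j _
      have hsub : A.filter (fun n => blk n = j) ⊆ block j := by
        intro n hn
        exact mem_block.2 (Finset.mem_filter.1 hn).2
      have h6 : ‖((γ j : ℝ) : 𝕜) *
          ∑ n ∈ A.filter (fun n => blk n = j), ε n * ((w n : ℝ) : 𝕜)‖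
          ≤ 2 * Real.sqrt (A.filter (fun n => blk n = j)).card := by
        rw [norm_mul, RCLike.norm_ofReal]
        refine le_trans ?_ (sum_w_le j _ hsub)
        apply mul_le_mul (hγ j) _ (norm_nonneg _) (s_pos j).le
        refine le_trans (norm_sum_le _ _) (le_of_eq ?_)
        apply Finset.sum_congr rfl
        intro n _
        rw [norm_mul, hε, one_mul, RCLike.norm_ofReal, abs_of_pos (w_pos n)]
      calc _ ≤ (2 * Real.sqrt (A.filter (fun n => blk n = j)).card) ^ 2 :=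
            pow_le_pow_left₀ (norm_nonneg _) h6 2
        _ = _ := by
            rw [mul_pow, Real.sq_sqrt (by positivity)]
            norm_num
    refine le_trans (Finset.sum_le_sum h5) ?_
    rw [← Finset.mul_sum]
    apply le_of_eq
    congr 1
    rw [Finset.card_eq_sum_card_image blk A]
    push_cast
    rfl
  rw [h1]
  refine le_trans (norm_add_le _ _) ?_
  linarith

lemma inner_vec_vec (α β : ℕ → ℝ) (hαβ : ∀ j, α j + β j + α j * β j = 0) (n k : ℕ) :
    ⟪(vec β n : L2 𝕜), vec α k⟫_𝕜 = if n = k then 1 else 0 := by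
  unfold vec
  simp only [inner_add_left, inner_add_right, inner_smul_left, inner_smul_right, inner_e_e,
    inner_e_W, inner_W_e, inner_W_W, RCLike.conj_ofReal]
  by_cases hb : blk n = blk k
  · rw [hb]
    simp only [if_true]
    have h0 := hαβ (blk k)
    have h1 : ((α (blk k) * w k : ℝ) : 𝕜) * ((w n : ℝ) : 𝕜) +
        (((β (blk k) * w n : ℝ) : 𝕜) * ((w k : ℝ) : 𝕜) +
        ((β (blk k) * w n : ℝ) : 𝕜) * (((α (blk k) * w k : ℝ) : 𝕜) * 1)) = 0 := by
      have h2 : (α (blk k) * w k) * w n + ((β (blk k) * w n) * w k +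
        (β (blk k) * w n) * ((α (blk k) * w k) * 1)) = 0 := by
        have : (α (blk k) * w k) * w n + ((β (blk k) * w n) * w k +
          (β (blk k) * w n) * ((α (blk k) * w k) * 1)) =
          (α (blk k) + β (blk k) + α (blk k) * β (blk k)) * (w n * w k) := by ring
        rw [this, h0, zero_mul]
      exact_mod_cast congrArg (fun t : ℝ => (t : 𝕜)) h2
    linear_combination h1
  · have hnk : n ≠ k := fun h => hb (by rw [h])
    simp [hb, hnk, Ne.symm hb]

lemma sum_w_vec (γ : ℕ → ℝ) (j : ℕ) :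
    ∑ k ∈ block j, ((w k : ℝ) : 𝕜) • (vec γ k : L2 𝕜) = ((1 + γ j : ℝ) : 𝕜) • W j := by
  unfold vec
  simp only [smul_add, Finset.sum_add_distrib]
  have h1 : ∑ k ∈ block j, ((w k : ℝ) : 𝕜) • ((γ (blk k) * w k : ℝ) : 𝕜) • (W (blk k) : L2 𝕜)
      = ((γ j : ℝ) : 𝕜) • W j := by
    have h2 : ∀ k ∈ block j, ((w k : ℝ) : 𝕜) • ((γ (blk k) * w k : ℝ) : 𝕜) • (W (blk k) : L2 𝕜)
        = ((γ j * (w k * w k) : ℝ) : 𝕜) • (W j : L2 𝕜) := by
      intro k hk
      rw [mem_block.1 hk, smul_smul]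
      congr 1
      push_cast
      ring
    rw [Finset.sum_congr rfl h2, ← Finset.sum_smul, ← RCLike.ofReal_sum, ← Finset.mul_sum,
      sum_w_sq, mul_one]
  rw [h1]
  change W j + _ = _
  push_cast
  rw [add_smul, one_smul]

lemma eq_zero_of_inner_vec {γ : ℕ → ℝ} (hγ : ∀ j, 1 + γ j ≠ 0) {f : L2 𝕜}
    (hf : ∀ n, ⟪(vec γ n : L2 𝕜), f⟫_𝕜 = 0) : f = 0 := by
  have hW : ∀ j, ⟪(W j : L2 𝕜), f⟫_𝕜 = 0 := by
    intro j
    have h1 : ⟪∑ k ∈ block j, ((w k : ℝ) : 𝕜) • (vec γ k : L2 𝕜), f⟫_𝕜 = 0 := by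
      rw [sum_inner]
      apply Finset.sum_eq_zero
      intro k _
      rw [inner_smul_left, hf, mul_zero]
    rw [sum_w_vec, inner_smul_left] at h1
    rcases mul_eq_zero.1 h1 with h2 | h2
    · exfalso
      rw [RCLike.conj_ofReal] at h2
      exact hγ j (by exact_mod_cast h2)
    · exact h2
  have he : ∀ n, f n = 0 := by
    intro n
    have h1 := hf n
    unfold vec at h1
    rw [inner_add_left, inner_smul_left, hW, mul_zero, add_zero, inner_e] at h1
    exact h1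
  ext n
  simpa using he n

/-! ### The two sequences of coefficients -/

/-- coefficients for the basis vectors -/
def al (j : ℕ) : ℝ := if Even j then s j else -(s j / (1 + s j))

/-- coefficients for the dual vectors -/
def be (j : ℕ) : ℝ := if Even j then -(s j / (1 + s j)) else s j

lemma al_be (j : ℕ) : al j + be j + al j * be j = 0 := by
  have := s_pos j
  unfold al be
  split_ifs <;> field_simp <;> ring

lemma abs_aux (j : ℕ) : |-(s j / (1 + s j))| ≤ s j := by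
  have h0 := s_pos j
  rw [abs_neg, abs_of_pos (by positivity)]
  apply div_le_self h0.le
  linarith

lemma abs_al (j : ℕ) : |al j| ≤ s j := by
  unfold al
  split_ifs
  · rw [abs_of_pos (s_pos j)]
  · exact abs_aux j

lemma abs_be (j : ℕ) : |be j| ≤ s j := by
  unfold be
  split_ifs
  · exact abs_aux j
  · rw [abs_of_pos (s_pos j)]

lemma one_add_aux (j : ℕ) : 1 + -(s j / (1 + s j)) ≠ 0 := by
  have h0 := s_pos j
  have h1 : 1 + -(s j / (1 + s j)) = 1 / (1 + s j) := by field_simp; ring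
  rw [h1]
  positivity

lemma one_add_al (j : ℕ) : 1 + al j ≠ 0 := by
  have h0 := s_pos j
  unfold al
  split_ifs
  · positivity
  · exact one_add_aux j

lemma one_add_be (j : ℕ) : 1 + be j ≠ 0 := by
  have h0 := s_pos j
  unfold be
  split_ifs
  · exact one_add_aux j
  · positivity

variable (𝕜)

/-- the basis -/
def x (n : ℕ) : L2 𝕜 := vec al n

/-- its coordinate functionals -/
def xs (n : ℕ) : L2 𝕜 →L[𝕜] 𝕜 := innerSL 𝕜 (vec be n)

lemma xs_apply (n : ℕ) (f : L2 𝕜) : xs 𝕜 n f = ⟪(vec be n : L2 𝕜), f⟫_𝕜 := rfl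

lemma norm_sum_xs (A : Finset ℕ) (ε : ℕ → 𝕜) :
    ‖∑ n ∈ A, ε n • xs 𝕜 n‖ = ‖∑ n ∈ A, (starRingEnd 𝕜) (ε n) • (vec be n : L2 𝕜)‖ := by
  rw [← innerSL_apply_norm (𝕜 := 𝕜) (∑ n ∈ A, (starRingEnd 𝕜) (ε n) • (vec be n : L2 𝕜))]
  congr 1
  rw [map_sum]
  apply Finset.sum_congr rfl
  intro n _
  rw [map_smulₛₗ, RCLike.conj_conj]
  rfl

lemma norm_sum_xs_le (A : Finset ℕ) (ε : ℕ → 𝕜) (hε : ∀ n, ‖ε n‖ = 1) :
    ‖∑ n ∈ A, ε n • xs 𝕜 n‖ ≤ 3 * Real.sqrt A.card := by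
  rw [norm_sum_xs]
  apply norm_sum_vec_le abs_be
  intro n
  rw [RCLike.norm_conj, hε]

lemma isBasis : IsBasis (x 𝕜) (xs 𝕜) where
  dense := by
    rw [Submodule.dense_iff_topologicalClosure_eq_top,
      Submodule.topologicalClosure_eq_top_iff]
    rw [Submodule.eq_bot_iff]
    intro f hf
    apply eq_zero_of_inner_vec one_add_al
    intro n
    exact (Submodule.mem_orthogonal _ _).1 hf _ (Submodule.subset_span ⟨n, rfl⟩)
  biorth := by
    intro n k
    rw [xs_apply]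
    exact inner_vec_vec al be al_be n k
  total := by
    intro f hf
    exact eq_zero_of_inner_vec one_add_be (fun n => hf n)
  bdd := by
    refine ⟨3, fun n => ⟨?_, ?_⟩⟩
    · have := norm_sum_vec_le (𝕜 := 𝕜) abs_al {n} (fun _ => 1) (fun _ => by simp)
      simpa [x] using this
    · have := norm_sum_xs_le 𝕜 {n} (fun _ => 1) (fun _ => by simp)
      simpa using this

lemma phi_le {V : Type} [NormedAddCommGroup V] [NormedSpace 𝕜 V] (v : ℕ → V)
    (hv : ∀ (A : Finset ℕ) (ε : ℕ → 𝕜), (∀ n, ‖ε n‖ = 1) →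
      ‖∑ n ∈ A, ε n • v n‖ ≤ 3 * Real.sqrt A.card) (m : ℕ) :
    phi (𝕜 := 𝕜) v m ≤ ENNReal.ofReal (3 * Real.sqrt m) := by
  unfold phi
  refine iSup_le fun A => iSup_le fun hA => iSup_le fun ε => iSup_le fun hε => ?_
  rw [← ofReal_norm]
  apply ENNReal.ofReal_le_ofReal
  refine le_trans (hv A ε hε) ?_
  gcongr

lemma bidemocratic : Bidemocratic (x 𝕜) (xs 𝕜) := by
  refine ⟨9, fun m _ => ?_⟩
  have h1 := phi_le 𝕜 (x 𝕜) (fun A ε hε => norm_sum_vec_le abs_al A ε hε) m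
  have h2 := phi_le 𝕜 (xs 𝕜) (fun A ε hε => norm_sum_xs_le 𝕜 A ε hε) m
  refine le_trans (mul_le_mul' h1 h2) ?_
  rw [← ENNReal.ofReal_mul (by positivity)]
  have h3 : (3 * Real.sqrt m) * (3 * Real.sqrt m) = 9 * (m : ℝ) := by
    have := Real.mul_self_sqrt (Nat.cast_nonneg (α := ℝ) m)
    nlinarith
  rw [h3, ENNReal.ofReal_mul (by norm_num), ENNReal.ofReal_natCast]
  apply le_of_eq
  congr 1
  simp

/-! ### Lorentz norms -/

variable {𝕜}

/-- the real value of the `n`-th harmonic weight in `ℝ≥0∞` -/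
lemma weight_mul (n : ℕ) (r : ℝ) :
    (ENNReal.ofReal (1 / Real.sqrt ((n : ℝ) + 1))) ^ r * ((n : ℝ≥0∞) + 1) ^ (r / 2 - 1)
      = ENNReal.ofReal (1 / ((n : ℝ) + 1)) := by
  have hn : (0 : ℝ) < (n : ℝ) + 1 := by positivity
  have h1 : ((n : ℝ≥0∞) + 1) = ENNReal.ofReal ((n : ℝ) + 1) := by
    rw [ENNReal.ofReal_add (by positivity) (by norm_num), ENNReal.ofReal_natCast]
    simp
  rw [h1, ENNReal.ofReal_rpow_of_pos (by positivity), ENNReal.ofReal_rpow_of_pos hn,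
    ← ENNReal.ofReal_mul (by positivity)]
  congr 1
  have h2 : 1 / ((n : ℝ) + 1) = ((n : ℝ) + 1) ^ (-1 : ℝ) := by
    rw [Real.rpow_neg_one, one_div]
  have h3 : 1 / Real.sqrt ((n : ℝ) + 1) = ((n : ℝ) + 1) ^ (-(1 / 2) : ℝ) := by
    rw [Real.rpow_neg hn.le, ← Real.sqrt_eq_rpow, one_div]
  rw [h2, h3, ← Real.rpow_mul hn.le, ← Real.rpow_add hn]
  congr 1
  ring

lemma h_eq_ofReal (j : ℕ) :
    ∑ n ∈ Finset.range (j + 1), ENNReal.ofReal (1 / ((n : ℝ) + 1)) = ENNReal.ofReal (h j) := by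
  unfold h
  rw [ENNReal.ofReal_sum_of_nonneg]
  intro i _
  positivity

/-- Lower bound for a Lorentz norm. -/
lemma le_lorentz {r : ℝ} (hr : 0 < r) (a : ℕ → 𝕜) (j : ℕ)
    (ha : ∀ n ∈ block j, c n ≤ ‖a n‖) :
    ENNReal.ofReal (h j) ^ (1 / r) ≤ lorentz r a := by
  unfold lorentz
  apply ENNReal.rpow_le_rpow _ (by positivity)
  rw [← h_eq_ofReal]
  refine le_trans (Finset.sum_le_sum ?_) (ENNReal.sum_le_tsum (Finset.range (j + 1)))
  intro n hn
  rw [← weight_mul n r]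
  gcongr
  unfold rearr
  apply le_sInf
  intro t ht
  by_contra hlt
  push Not at hlt
  have hsub : ((Finset.range (n + 1) : Finset ℕ) : Set ℕ) ⊆
      pos '' {k : ℕ | t < ‖a k‖ₑ} := by
    intro i hi
    have hi' : i < n + 1 := by simpa using hi
    have hij : i < j + 1 := lt_of_lt_of_le hi' (by simpa using hn)
    refine ⟨idx.symm ⟨j, ⟨i, hij⟩⟩, ?_, pos_symm j ⟨i, hij⟩⟩
    have hmem : idx.symm ⟨j, ⟨i, hij⟩⟩ ∈ block j := mem_block.2 (blk_symm j _)
    refine lt_of_lt_of_le hlt ?_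
    rw [← ofReal_norm]
    apply ENNReal.ofReal_le_ofReal
    refine le_trans ?_ (ha _ hmem)
    unfold c
    rw [pos_symm]
    apply one_div_le_one_div_of_le (by positivity)
    apply Real.sqrt_le_sqrt
    have : (i : ℝ) ≤ n := by exact_mod_cast Nat.lt_succ_iff.1 hi'
    simpa using this
  have h1 := Set.encard_le_encard hsub
  rw [Set.encard_coe_eq_coe_finsetCard, Finset.card_range] at h1
  have h2 := h1.trans ((Set.encard_image_le _ _).trans ht)
  have h3 : n + 1 ≤ n := by exact_mod_cast h2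
  omega

/-- Upper bound for a Lorentz norm. -/
lemma lorentz_le {q : ℝ} (hq : 0 < q) (a : ℕ → 𝕜) (j : ℕ)
    (ha : ∀ n ∈ block j, ‖a n‖ ≤ c n) (ha' : ∀ n, n ∉ block j → a n = 0) :
    lorentz q a ≤ ENNReal.ofReal (h j) ^ (1 / q) := by
  unfold lorentz
  apply ENNReal.rpow_le_rpow _ (by positivity)
  have h0 : ∀ n, n ∉ Finset.range (j + 1) →
      rearr a n ^ q * ((n : ℝ≥0∞) + 1) ^ (q / 2 - 1) = 0 := by
    intro n hn
    have hn' : j + 1 ≤ n := by simpa using hn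
    have : rearr a n = 0 := by
      rw [← nonpos_iff_eq_zero]
      unfold rearr
      apply sInf_le
      have hsub : {k : ℕ | 0 < ‖a k‖ₑ} ⊆ ((block j : Finset ℕ) : Set ℕ) := by
        intro k hk
        by_contra hk'
        have := ha' k (by simpa using hk')
        simp [this] at hk
      refine le_trans (Set.encard_le_encard hsub) ?_
      rw [Set.encard_coe_eq_coe_finsetCard, card_block]
      exact_mod_cast hn'
    rw [this, ENNReal.zero_rpow_of_pos hq, zero_mul]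
  rw [tsum_eq_sum h0, ← h_eq_ofReal]
  apply Finset.sum_le_sum
  intro n hn
  rw [← weight_mul n q]
  gcongr
  unfold rearr
  apply sInf_le
  have hmaps : ∀ k ∈ {k : ℕ | ENNReal.ofReal (1 / Real.sqrt ((n : ℝ) + 1)) < ‖a k‖ₑ},
      k ∈ block j ∧ pos k < n := by
    intro k hk
    have hkj : k ∈ block j := by
      by_contra hk'
      have := ha' k hk'
      simp [this] at hk
    refine ⟨hkj, ?_⟩
    by_contra hge
    push Not at hge
    have h1 : ‖a k‖ ≤ 1 / Real.sqrt ((n : ℝ) + 1) := by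
      refine le_trans (ha k hkj) ?_
      unfold c
      apply one_div_le_one_div_of_le (by positivity)
      apply Real.sqrt_le_sqrt
      have : (n : ℝ) ≤ pos k := by exact_mod_cast hge
      linarith
    have h2 : ‖a k‖ₑ ≤ ENNReal.ofReal (1 / Real.sqrt ((n : ℝ) + 1)) := by
      rw [← ofReal_norm]
      exact ENNReal.ofReal_le_ofReal h1
    exact absurd hk (not_lt.2 h2)
  have hinj : Set.InjOn pos
      {k : ℕ | ENNReal.ofReal (1 / Real.sqrt ((n : ℝ) + 1)) < ‖a k‖ₑ} := by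
    intro k hk l hl hkl
    apply eq_of_blk_pos _ hkl
    rw [mem_block.1 (hmaps k hk).1, mem_block.1 (hmaps l hl).1]
  have hmaps' : Set.MapsTo pos
      {k : ℕ | ENNReal.ofReal (1 / Real.sqrt ((n : ℝ) + 1)) < ‖a k‖ₑ}
      ((Finset.range n : Finset ℕ) : Set ℕ) := by
    intro k hk
    simpa using (hmaps k hk).2
  have h4 := Set.encard_le_encard_of_injOn hmaps' hinj
  rw [Set.encard_coe_eq_coe_finsetCard, Finset.card_range] at h4
  exact h4

lemma tendsto_h : Filter.Tendsto h Filter.atTop Filter.atTop := by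
  have h1 := Real.tendsto_sum_range_one_div_nat_succ_atTop
  exact h1.comp (Filter.tendsto_add_atTop_nat 1)

/-- `h` is unbounded along any infinite family of blocks. -/
lemma exists_big (P : ℕ → Prop) (hP : ∀ N, ∃ j, N ≤ j ∧ P j) {θ : ℝ} (hθ : 0 < θ) (C : ℝ) :
    ∃ j, P j ∧ C < h j ^ θ := by
  have h1 : Filter.Tendsto (fun j => h j ^ θ) Filter.atTop Filter.atTop :=
    (tendsto_rpow_atTop hθ).comp tendsto_h
  obtain ⟨N, hN⟩ := (h1.eventually_gt_atTop C).exists_forall_of_atTop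
  obtain ⟨j, hj, hPj⟩ := hP N
  exact ⟨j, hPj, hN j hj⟩

lemma not_embL {q : ℝ} (hq : 1 < q) : ¬ EmbL (x 𝕜) q := by
  rintro ⟨C, hC⟩
  have hq0 : 0 < q := lt_trans one_pos hq
  have hθ : 0 < 1 - 1 / q := by
    have : 1 / q < 1 := by rw [div_lt_one hq0]; exact hq
    linarith
  obtain ⟨j, hj, hbig⟩ := exists_big Even
    (fun N => ⟨2 * N, by omega, even_two_mul N⟩) hθ C
  have hpos : 0 < h j := lt_of_lt_of_le one_pos (h_ge_one j)
  classical
  let a : ℕ →₀ 𝕜 := Finsupp.onFinset (block j)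
    (fun n => if n ∈ block j then ((c n : ℝ) : 𝕜) else 0) (by
      intro n hn
      by_contra hn'
      simp [hn'] at hn)
  have ha1 : ∀ n ∈ block j, a n = ((c n : ℝ) : 𝕜) := by
    intro n hn
    simp [a, hn]
  have ha2 : ∀ n, n ∉ block j → a n = 0 := by
    intro n hn
    simp [a, hn]
  have hsum : ∑ n ∈ a.support, a n • x 𝕜 n = ((s j * (1 + s j) : ℝ) : 𝕜) • W j := by
    have h1 : ∑ n ∈ a.support, a n • x 𝕜 n = ∑ n ∈ block j, a n • x 𝕜 n := by
      apply Finset.sum_subset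
      · intro n hn
        by_contra hn'
        exact (Finsupp.mem_support_iff.1 hn) (ha2 n hn')
      · intro n _ hn
        rw [Finsupp.notMem_support_iff.1 hn, zero_smul]
    rw [h1]
    have h2 : ∀ n ∈ block j, a n • x 𝕜 n = ((s j : ℝ) : 𝕜) • ((w n : ℝ) : 𝕜) • vec al n := by
      intro n hn
      rw [ha1 n hn, c_eq hn, smul_smul]
      congr 1
      push_cast
      rfl
    rw [Finset.sum_congr rfl h2, ← Finset.smul_sum, sum_w_vec, smul_smul]
    congr 1
    have h3 : al j = s j := by unfold al; rw [if_pos hj]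
    rw [h3]
    push_cast
    rfl
  have h1 := hC a
  rw [hsum] at h1
  have h2 : ENNReal.ofReal (h j) ≤ ‖((s j * (1 + s j) : ℝ) : 𝕜) • (W j : L2 𝕜)‖ₑ := by
    rw [← ofReal_norm, norm_smul, orthonormal_W.1 j, mul_one, RCLike.norm_ofReal]
    apply ENNReal.ofReal_le_ofReal
    have h0 := s_pos j
    rw [abs_of_pos (by positivity), ← s_sq]
    nlinarith
  have h3 : lorentz q a ≤ ENNReal.ofReal (h j) ^ (1 / q) := by
    apply lorentz_le hq0 _ j _ ha2
    intro n hn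
    rw [ha1 n hn, RCLike.norm_ofReal, abs_of_pos (c_pos n)]
  have h4 : ENNReal.ofReal (h j) ≤ C * ENNReal.ofReal (h j) ^ (1 / q) :=
    le_trans h2 (le_trans h1 (by gcongr))
  rw [ENNReal.ofReal_rpow_of_pos hpos, ← ENNReal.ofReal_coe_nnreal,
    ← ENNReal.ofReal_mul (by positivity),
    ENNReal.ofReal_le_ofReal_iff (by positivity)] at h4
  have h5 : h j ^ (1 - 1 / q) ≤ C := by
    rw [Real.rpow_sub hpos, Real.rpow_one, div_le_iff₀ (by positivity)]
    exact h4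
  linarith

lemma not_embR {r : ℝ} (hr : 0 < r) : ¬ EmbR (xs 𝕜) r := by
  rintro ⟨C, hC⟩
  obtain ⟨j, hj, hbig⟩ := exists_big (fun j => ¬ Even j)
    (fun N => ⟨2 * N + 1, by omega, by simp⟩) (one_div_pos.2 hr) C
  have hpos : 0 < h j := lt_of_lt_of_le one_pos (h_ge_one j)
  have h1 := hC (W j)
  have h2 : ‖(W j : L2 𝕜)‖ₑ = 1 := by
    rw [← ofReal_norm, orthonormal_W.1 j]
    simp
  rw [h2, mul_one] at h1
  have h3 : ENNReal.ofReal (h j) ^ (1 / r) ≤ lorentz r (fun n => xs 𝕜 n (W j)) := by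
    apply le_lorentz hr _ j
    intro n hn
    have hb := mem_block.1 hn
    have h4 : xs 𝕜 n (W j) = (((1 + s j) * w n : ℝ) : 𝕜) := by
      rw [xs_apply]
      unfold vec
      rw [inner_add_left, inner_smul_left, inner_e_W, inner_W_W, hb]
      have h5 : be j = s j := by unfold be; rw [if_neg hj]
      rw [h5]
      simp only [if_true, RCLike.conj_ofReal]
      push_cast
      ring
    have h0 := s_pos j
    have hw := w_pos n
    rw [h4, RCLike.norm_ofReal, abs_of_pos (by positivity), c_eq hn]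
    nlinarith
  have h4 := le_trans h3 h1
  rw [ENNReal.ofReal_rpow_of_pos hpos, ← ENNReal.ofReal_coe_nnreal,
    ENNReal.ofReal_le_ofReal_iff (by positivity)] at h4
  linarith

end Vectors

/-- **Negative answer to Q1.** Over either scalar field there is a bidemocratic basis of `ℓ₂`
such that `ℓ_{2,q} ↪ ℓ₂` fails for every `q > 1` and `ℓ₂ ↪ ℓ_{2,r}` fails for every
`0 < r < ∞`. -/
theorem result (𝕜 : Type) [RCLike 𝕜] :
    ∃ (x : ℕ → L2 𝕜) (xs : ℕ → (L2 𝕜 →L[𝕜] 𝕜)),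
      IsBasis x xs ∧ Bidemocratic x xs ∧
      (∀ q : ℝ, 1 < q → ¬ EmbL x q) ∧
      (∀ r : ℝ, 0 < r → ¬ EmbR xs r) :=
  ⟨x 𝕜, xs 𝕜, isBasis 𝕜, bidemocratic 𝕜, fun _ hq => not_embL hq, fun _ hr => not_embR hr⟩

end

end Pool.Agent.Results.MP_c77635_an.NoSqueeze
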